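import Pool.Agent.Q204.CK.Game
import Pool.Agent.Q204.LL.Top

set_option autoImplicit false

/-!
# Analytic predicates: reduction and unicity
-/

namespace Q204.CK

open Q204.WD MeasureTheory

/-- Analytic predicates on Baire space. -/
abbrev An (P : (ℕ → ℕ) → Prop) : Prop := AnalyticSet {p : ℕ → ℕ | P p}

/-- Measurable predicates. -/
abbrev Ms {α : Type*} [MeasurableSpace α] (P : α → Prop) : Prop := MeasurableSet {x : α | P x}

theorem Ms.all {α ι : Type*} [MeasurableSpace α] [Countable ι] {P : ι → α → Prop}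
    (h : ∀ i, Ms (P i)) : Ms (fun x => ∀ i, P i x) := by
  have : {x : α | ∀ i, P i x} = ⋂ i, {x | P i x} := by
    ext x
    simp
  show MeasurableSet _
  rw [this]
  exact MeasurableSet.iInter h

theorem Ms.ex {α ι : Type*} [MeasurableSpace α] [Countable ι] {P : ι → α → Prop}
    (h : ∀ i, Ms (P i)) : Ms (fun x => ∃ i, P i x) := by
  have : {x : α | ∃ i, P i x} = ⋃ i, {x | P i x} := by
    ext x
    simp
  show MeasurableSet _
  rw [this]
  exact MeasurableSet.iUnion h

theorem Ms.and {α : Type*} [MeasurableSpace α] {P Q : α → Prop} (hP : Ms P) (hQ : Ms Q) :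
    Ms (fun x => P x ∧ Q x) := MeasurableSet.inter hP hQ

theorem Ms.or {α : Type*} [MeasurableSpace α] {P Q : α → Prop} (hP : Ms P) (hQ : Ms Q) :
    Ms (fun x => P x ∨ Q x) := MeasurableSet.union hP hQ

theorem Ms.not {α : Type*} [MeasurableSpace α] {P : α → Prop} (hP : Ms P) :
    Ms (fun x => ¬ P x) := MeasurableSet.compl hP

theorem Ms.imp {α : Type*} [MeasurableSpace α] {P Q : α → Prop} (hP : Ms P) (hQ : Ms Q) :
    Ms (fun x => P x → Q x) := by
  have : {x : α | P x → Q x} = {x | ¬ P x} ∪ {x | Q x} := by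
    ext x
    show (P x → Q x) ↔ (¬ P x ∨ Q x)
    tauto
  show MeasurableSet _
  rw [this]
  exact hP.not.union hQ

theorem Ms.const {α : Type*} [MeasurableSpace α] (P : Prop) : Ms (fun _ : α => P) :=
  MeasurableSet.const P

theorem Ms.preimage {α β : Type*} [MeasurableSpace α] [MeasurableSpace β] {P : β → Prop}
    (hP : Ms P) {f : α → β} (hf : Measurable f) : Ms (fun x => P (f x)) := hf hP

theorem An.of_ms {P : (ℕ → ℕ) → Prop} (h : Ms P) : An P := MeasurableSet.analyticSet h

theorem An.congr {P Q : (ℕ → ℕ) → Prop} (h : An P) (hPQ : ∀ p, P p ↔ Q p) : An Q := by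
  have : {p : ℕ → ℕ | Q p} = {p | P p} := by
    ext p
    exact (hPQ p).symm
  show AnalyticSet _
  rw [this]
  exact h

theorem An.ex {ι : Type*} [Countable ι] {P : ι → (ℕ → ℕ) → Prop} (h : ∀ i, An (P i)) :
    An (fun p => ∃ i, P i p) := by
  have : {p : ℕ → ℕ | ∃ i, P i p} = ⋃ i, {p | P i p} := by
    ext x
    simp
  show AnalyticSet _
  rw [this]
  exact AnalyticSet.iUnion h

theorem An.all {ι : Type*} [Countable ι] [Nonempty ι] {P : ι → (ℕ → ℕ) → Prop}
    (h : ∀ i, An (P i)) : An (fun p => ∀ i, P i p) := by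
  have : {p : ℕ → ℕ | ∀ i, P i p} = ⋂ i, {p | P i p} := by
    ext x
    simp
  show AnalyticSet _
  rw [this]
  exact AnalyticSet.iInter h

theorem An.or {P Q : (ℕ → ℕ) → Prop} (hP : An P) (hQ : An Q) : An (fun p => P p ∨ Q p) := by
  refine (An.ex (ι := Bool) (P := fun b p => if b then P p else Q p) (fun b => ?_)).congr ?_
  · cases b
    · simpa using hQ
    · simpa using hP
  · intro p
    simp [or_comm]

theorem An.and {P Q : (ℕ → ℕ) → Prop} (hP : An P) (hQ : An Q) : An (fun p => P p ∧ Q p) := by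
  refine (An.all (ι := Bool) (P := fun b p => if b then P p else Q p) (fun b => ?_)).congr ?_
  · cases b
    · simpa using hQ
    · simpa using hP
  · intro p
    simp [and_comm]

theorem An.proj {Y : Type*} [TopologicalSpace Y] [PolishSpace Y] [MeasurableSpace Y]
    [BorelSpace Y] {C : (ℕ → ℕ) × Y → Prop} (hC : Ms C) : An (fun p => ∃ y, C (p, y)) := by
  have h1 : AnalyticSet {x : (ℕ → ℕ) × Y | C x} := MeasurableSet.analyticSet hC
  have h2 := h1.image_of_continuous (continuous_fst (X := ℕ → ℕ) (Y := Y))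
  have : {p : ℕ → ℕ | ∃ y, C (p, y)} = Prod.fst '' {x : (ℕ → ℕ) × Y | C x} := by
    ext p
    constructor
    · rintro ⟨y, hy⟩
      exact ⟨(p, y), hy, rfl⟩
    · rintro ⟨⟨q, y⟩, hy, rfl⟩
      exact ⟨y, hy⟩
  show AnalyticSet _
  rw [this]
  exact h2

/-- A function to trees is measurable. -/
def TM (T : (ℕ → ℕ) → Set (List ℕ)) : Prop := ∀ s, Ms (fun p => s ∈ T p)

theorem ms_pre (P : List ℕ → Prop) (n : ℕ) : Ms (fun p : ℕ → ℕ => P (pre p n)) :=
  (LL.isOpen_pre P n).measurableSet

open Classical in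
theorem an_E {T S : (ℕ → ℕ) → Set (List ℕ)} (hT : TM T) (hS : TM S) (σ τ : List ℕ) :
    An (fun p => E (T p) (S p) σ τ) := by
  have hW : ∀ x : List ℕ × List ℕ, Ms (fun q : (ℕ → ℕ) × (List ℕ × List ℕ → ℕ) =>
      q.2 x = 1) := by
    intro x
    have h1 : Measurable (fun q : (ℕ → ℕ) × (List ℕ × List ℕ → ℕ) => q.2 x) :=
      (measurable_pi_apply x).comp measurable_snd
    exact h1 (measurableSet_singleton 1)
  have hTm : ∀ s, Ms (fun q : (ℕ → ℕ) × (List ℕ × List ℕ → ℕ) => s ∈ T q.1) :=
    fun s => (hT s).preimage measurable_fst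
  have hSm : ∀ s, Ms (fun q : (ℕ → ℕ) × (List ℕ × List ℕ → ℕ) => s ∈ S q.1) :=
    fun s => (hS s).preimage measurable_fst
  have h := An.proj (Y := List ℕ × List ℕ → ℕ) (C := fun q => q.2 (σ, τ) = 1 ∧
    ∀ x : List ℕ × List ℕ, q.2 x = 1 → ∀ a, x.1 ++ [a] ∈ T q.1 → ∃ b, x.2 ++ [b] ∈ S q.1 ∧
      q.2 (x.1 ++ [a], x.2 ++ [b]) = 1)
    ((hW _).and (Ms.all fun x => (hW x).imp (Ms.all fun a => (hTm _).imp
      (Ms.ex fun b => (hSm _).and (hW _)))))
  refine h.congr (fun p => ?_)
  constructor
  · rintro ⟨W, h1, h2⟩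
    exact ⟨{x | W x = 1}, fun σ' τ' h3 a ha => h2 (σ', τ') h3 a ha, h1⟩
  · rintro ⟨W, h1, h2⟩
    have hi : ∀ x, (if x ∈ W then 1 else 0 : ℕ) = 1 ↔ x ∈ W := by
      intro x
      by_cases hx : x ∈ W
      · simp [hx]
      · simp [hx]
    refine ⟨fun x => if x ∈ W then 1 else 0, (hi _).2 h2, fun x hx a ha => ?_⟩
    obtain ⟨b, hb, hb'⟩ := h1 x.1 x.2 ((hi _).1 hx) a ha
    exact ⟨b, hb, (hi _).2 hb'⟩

theorem ms_mem_pre {T : (ℕ → ℕ) → Set (List ℕ)} (hT : TM T) (n : ℕ) :
    Ms (fun q : (ℕ → ℕ) × (ℕ → ℕ) => pre q.2 n ∈ T q.1) := by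
  have h : Ms (fun q : (ℕ → ℕ) × (ℕ → ℕ) => ∃ s : List ℕ, pre q.2 n = s ∧ s ∈ T q.1) :=
    Ms.ex fun s => ((ms_pre (fun l => l = s) n).preimage measurable_snd).and
      ((hT s).preimage measurable_fst)
  have : {q : (ℕ → ℕ) × (ℕ → ℕ) | pre q.2 n ∈ T q.1} =
      {q | ∃ s : List ℕ, pre q.2 n = s ∧ s ∈ T q.1} := by
    ext q
    simp
  show MeasurableSet _
  rw [this]
  exact h

theorem ms_Br {T : (ℕ → ℕ) → Set (List ℕ)} (hT : TM T) (σ : List ℕ) :
    Ms (fun q : (ℕ → ℕ) × (ℕ → ℕ) => Br (T q.1) σ q.2) :=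
  ((ms_pre (fun l => l = σ) σ.length).preimage measurable_snd).and
    (Ms.all fun n => (Ms.const _).imp (ms_mem_pre hT n))

theorem an_Br {T : (ℕ → ℕ) → Set (List ℕ)} (hT : TM T) (σ : List ℕ) :
    An (fun p => ∃ y, Br (T p) σ y) := An.proj (ms_Br hT σ)

/-- The tree of a relation. -/
def treeOf (F : Set ((ℕ → ℕ) × (ℕ → ℕ))) (p : ℕ → ℕ) : Set (List ℕ) :=
  {s | ∃ q y, (q, y) ∈ F ∧ pre q s.length = pre p s.length ∧ pre y s.length = s}

theorem tm_treeOf (F : Set ((ℕ → ℕ) × (ℕ → ℕ))) : TM (treeOf F) := fun s =>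
  ms_pre (fun l => ∃ q y, (q, y) ∈ F ∧ pre q s.length = l ∧ pre y s.length = s) s.length

theorem br_treeOf {F : Set ((ℕ → ℕ) × (ℕ → ℕ))} (hF : IsClosed F) (p y : ℕ → ℕ) :
    Br (treeOf F p) [] y ↔ (p, y) ∈ F := by
  constructor
  · rintro ⟨-, h⟩
    choose q z hqz hq hz using fun n : ℕ => h (n + 1) (by simp)
    have hlim : Filter.Tendsto (fun n => (q n, z n)) Filter.atTop (nhds (p, y)) := by
      rw [Prod.tendsto_iff]
      constructor
      · rw [tendsto_pi_nhds]
        intro i
        apply tendsto_const_nhds.congr'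
        filter_upwards [Filter.eventually_ge_atTop i] with n hn
        have h1 := hq n
        simp only [List.length_map, List.length_range] at h1
        exact (pre_eq_iff.1 h1 i (by omega)).symm
      · rw [tendsto_pi_nhds]
        intro i
        apply tendsto_const_nhds.congr'
        filter_upwards [Filter.eventually_ge_atTop i] with n hn
        have h1 := hz n
        simp only [List.length_map, List.length_range] at h1
        have h2 : pre (z n) (n + 1) = pre y (n + 1) := h1
        exact (pre_eq_iff.1 h2 i (by omega)).symm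
    exact hF.mem_of_tendsto hlim (Filter.Eventually.of_forall hqz)
  · intro h
    refine ⟨rfl, fun n _ => ⟨p, y, h, rfl, ?_⟩⟩
    simp [pre]

/-- Analytic predicates are projections of closed relations. -/
theorem An.closed {P : (ℕ → ℕ) → Prop} (h : An P) :
    ∃ F : Set ((ℕ → ℕ) × (ℕ → ℕ)), IsClosed F ∧ ∀ p, P p ↔ ∃ y, (p, y) ∈ F := by
  unfold An at h
  rw [AnalyticSet] at h
  rcases h with h | ⟨f, hf, hr⟩
  · refine ⟨∅, isClosed_empty, fun p => ?_⟩
    constructor
    · intro hp
      have : p ∈ ({p | P p} : Set (ℕ → ℕ)) := hp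
      rw [h] at this
      exact this.elim
    · rintro ⟨y, hy⟩
      exact hy.elim
  · refine ⟨{x | f x.2 = x.1}, isClosed_eq (hf.comp continuous_snd) continuous_fst, fun p => ?_⟩
    constructor
    · intro hp
      have : p ∈ Set.range f := by
        rw [hr]
        exact hp
      obtain ⟨y, hy⟩ := this
      exact ⟨y, hy⟩
    · rintro ⟨y, hy⟩
      have : p ∈ ({p | P p} : Set (ℕ → ℕ)) := by
        rw [← hr]
        exact ⟨y, hy⟩
      exact this

/-- The reduction property of coanalytic sets, for complements. -/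
theorem reduction {A₀ A₁ : (ℕ → ℕ) → Prop} (h₀ : An A₀) (h₁ : An A₁) :
    ∃ B₀ B₁ : (ℕ → ℕ) → Prop, An B₀ ∧ An B₁ ∧ (∀ p, A₀ p → B₀ p) ∧ (∀ p, A₁ p → B₁ p) ∧
      (∀ p, B₀ p ∨ B₁ p) ∧ ∀ p, B₀ p → B₁ p → A₀ p ∧ A₁ p := by
  obtain ⟨F₀, hF₀, hA₀⟩ := h₀.closed
  obtain ⟨F₁, hF₁, hA₁⟩ := h₁.closed
  set T₀ := treeOf F₀ with hT₀
  set T₁ := treeOf F₁ with hT₁
  have b₀ : ∀ p, A₀ p ↔ ∃ y, Br (T₀ p) [] y := fun p => by
    rw [hA₀]
    simp only [hT₀, br_treeOf hF₀]
  have b₁ : ∀ p, A₁ p ↔ ∃ y, Br (T₁ p) [] y := fun p => by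
    rw [hA₁]
    simp only [hT₁, br_treeOf hF₁]
  refine ⟨fun p => A₀ p ∨ ∃ a, [a] ∈ T₀ p ∧ E (T₁ p) (T₀ p) [] [a],
    fun p => A₁ p ∨ E (T₀ p) (T₁ p) [] [], ?_, ?_, fun p h => Or.inl h, fun p h => Or.inl h, ?_, ?_⟩
  · exact h₀.or (An.ex fun a => (An.of_ms (tm_treeOf F₀ [a])).and
      (an_E (tm_treeOf F₁) (tm_treeOf F₀) [] [a]))
  · exact h₁.or (an_E (tm_treeOf F₀) (tm_treeOf F₁) [] [])
  · intro p
    by_cases h : E (T₀ p) (T₁ p) [] []
    · exact Or.inr (Or.inr h)
    · obtain ⟨a, ha, ha'⟩ := E_total h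
      exact Or.inl (Or.inr ⟨a, ha, ha'⟩)
  · intro p hB₀ hB₁
    have key : A₀ p → A₁ p := by
      intro h0
      rcases hB₁ with h | h
      · exact h
      · obtain ⟨y, hy⟩ := (b₀ p).1 h0
        exact (b₁ p).2 (h.branch hy)
    rcases hB₀ with h0 | ⟨a, ha, hE⟩
    · exact ⟨h0, key h0⟩
    · have h0 : A₀ p := by
        rcases hB₁ with h | h
        · obtain ⟨y, hy⟩ := (b₁ p).1 h
          obtain ⟨z, hz1, hz2⟩ := hE.branch hy
          refine (b₀ p).2 ⟨z, rfl, fun n hn => ?_⟩
          rcases Nat.lt_or_ge 1 n with h1 | h1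
          · exact hz2 n h1
          · have h2 : n = 1 := by
              simp only [List.length_nil] at hn
              omega
            subst h2
            have h3 : (List.range 1).map z = [a] := hz1
            rw [h3]
            exact ha
        · exact (b₀ p).2 (branch_of_cycle h (σ := []) (a := a) ha hE)
      exact ⟨h0, key h0⟩

/-! ### Unicity -/

/-- The child `a` of `σ` dominates its siblings. -/
def Dom (T : Set (List ℕ)) (σ : List ℕ) (a : ℕ) : Prop :=
  ∀ b, b ≠ a → σ ++ [b] ∈ T → ¬ E T T (σ ++ [a]) (σ ++ [b])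

theorem Dom.unique {T : Set (List ℕ)} {σ : List ℕ} {a b : ℕ} (ha : Dom T σ a) (hb : Dom T σ b)
    (haT : σ ++ [a] ∈ T) (hbT : σ ++ [b] ∈ T) : a = b := by
  by_contra hab
  obtain ⟨c, hc, hE⟩ := E_total (ha b (Ne.symm hab) hbT)
  exact hb a hab haT (E_of_child hc hE)

/-- The condition of length `n`. -/
def Dn (T : Set (List ℕ)) (n : ℕ) (s : List ℕ) : Prop :=
  s.length = n ∧ ∀ i < n, s.take (i + 1) ∈ T ∧ Dom T (s.take i) (s.getD i 0)

theorem unicity (T : Set (List ℕ)) : (∃! y, Br T [] y) ↔
    (¬ ∃ y z, y ≠ z ∧ Br T [] y ∧ Br T [] z) ∧ ∀ n, ∃ s, Dn T n s := by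
  constructor
  · rintro ⟨y, hy, hu⟩
    have hyT : ∀ n, pre y (n + 1) ∈ T := fun n => hy.2 (n + 1) (by simp)
    refine ⟨?_, fun n => ⟨pre y n, by simp, fun i hi => ?_⟩⟩
    · rintro ⟨y', z, hne, h1, h2⟩
      exact hne ((hu y' h1).trans (hu z h2).symm)
    · have t1 : (pre y n).take (i + 1) = pre y (i + 1) := by
        have h1 := pre_prefix (p := y) (show i + 1 ≤ n by omega)
        rw [List.prefix_iff_eq_take, pre_length] at h1
        exact h1.symm
      have t2 : (pre y n).take i = pre y i := by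
        have h1 := pre_prefix (p := y) (show i ≤ n by omega)
        rw [List.prefix_iff_eq_take, pre_length] at h1
        exact h1.symm
      rw [t1, t2, pre_getD y n i hi]
      refine ⟨hyT i, ?_⟩
      intro b hb hbT hE
      have hbr : Br T (pre y i ++ [y i]) y := by
        rw [← pre_succ]
        refine ⟨by rw [pre_length]; rfl, fun n hn => ?_⟩
        exact hy.2 n (by simp; omega)
      obtain ⟨z, hz1, hz2⟩ := hE.branch hbr
      have hz : Br T [] z := by
        refine ⟨rfl, fun n hn => ?_⟩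
        rcases Nat.lt_or_ge (i + 1) n with h1 | h1
        · exact hz2 n (by simpa using h1)
        · have h3 : pre z n <+: pre y i ++ [b] := by
            have h4 : pre z (i + 1) = pre y i ++ [b] := by
              have := hz1
              rw [List.length_append, pre_length] at this
              exact this
            rw [← h4]
            exact pre_prefix h1
          rcases Nat.lt_or_ge n (i + 1) with h5 | h5
          · have h6 : pre z n <+: pre y i := by
              apply List.prefix_of_prefix_length_le h3 (List.prefix_append _ _)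
              simp
              omega
            have h7 := prefix_eq_pre h6
            rw [pre_length] at h7
            show pre z n ∈ T
            rw [h7]
            exact hy.2 n hn
          · have h6 : pre z n = pre y i ++ [b] := h3.eq_of_length (by simp; omega)
            show pre z n ∈ T
            rw [h6]
            exact hbT
      have hzy := hu z hz
      subst hzy
      have h4 : pre z (i + 1) = pre z i ++ [b] := by
        have := hz1
        rw [List.length_append, pre_length] at this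
        exact this
      rw [pre_succ] at h4
      have h5 := List.append_cancel_left h4
      simp only [List.cons.injEq, and_true] at h5
      exact hb h5.symm
  · rintro ⟨hu, hs⟩
    choose s hs using hs
    have huniq : ∀ n s s', Dn T n s → Dn T n s' → s = s' := by
      intro n
      induction n with
      | zero =>
        rintro s s' ⟨h1, -⟩ ⟨h2, -⟩
        rw [List.length_eq_zero_iff] at h1 h2
        rw [h1, h2]
      | succ n ih =>
        intro s s' h1 h2
        have cut : ∀ s, Dn T (n + 1) s → Dn T n (s.take n) ∧ s = s.take n ++ [s.getD n 0] ∧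
            s.take n ++ [s.getD n 0] ∈ T ∧ Dom T (s.take n) (s.getD n 0) := by
          rintro s ⟨h1, h2⟩
          have h3 : s = s.take n ++ [s.getD n 0] := by
            conv_lhs => rw [← List.take_append_drop n s]
            congr 1
            rw [List.drop_eq_getElem_cons (by omega), List.drop_eq_nil_of_le (by omega),
              List.getD_eq_getElem _ _ (by omega)]
          refine ⟨⟨by rw [List.length_take]; omega, fun i hi => ?_⟩, h3, ?_, (h2 n (by omega)).2⟩
          · have h4 := h2 i (by omega)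
            rw [List.take_take, List.take_take, min_eq_left (by omega), min_eq_left (by omega)]
            have h5 : (s.take n).getD i 0 = s.getD i 0 := by
              rw [List.getD_eq_getElem _ _ (by rw [List.length_take]; omega),
                List.getD_eq_getElem _ _ (by omega), List.getElem_take]
            rw [h5]
            exact h4
          · have h4 := (h2 n (by omega)).1
            rw [List.take_of_length_le (by omega)] at h4
            rw [← h3]
            exact h4
        obtain ⟨a1, a2, a3, a4⟩ := cut s h1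
        obtain ⟨b1, b2, b3, b4⟩ := cut s' h2
        have h3 := ih _ _ a1 b1
        rw [← h3] at b2 b3 b4
        have h4 := a4.unique b4 a3 b3
        rw [a2, b2, h4]
    have hcut : ∀ m n, m ≤ n → s m = (s n).take m := by
      intro m n hmn
      apply huniq m _ _ (hs m)
      obtain ⟨h1, h2⟩ := hs n
      refine ⟨by rw [List.length_take]; omega, fun i hi => ?_⟩
      have h4 := h2 i (by omega)
      rw [List.take_take, List.take_take, min_eq_left (by omega), min_eq_left (by omega)]
      have h5 : ((s n).take m).getD i 0 = (s n).getD i 0 := by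
        rw [List.getD_eq_getElem _ _ (by rw [List.length_take]; omega),
          List.getD_eq_getElem _ _ (by omega), List.getElem_take]
      rw [h5]
      exact h4
    set y : ℕ → ℕ := fun i => (s (i + 1)).getD i 0 with hy
    have hpre : ∀ n, pre y n = s n := by
      intro n
      apply List.ext_getElem
      · rw [pre_length, (hs n).1]
      · intro i h1 h2
        rw [pre_getElem, hy]
        simp only
        rw [pre_length] at h1
        rw [hcut (i + 1) n (by omega), List.getD_eq_getElem _ _ (by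
          rw [List.length_take]
          omega), List.getElem_take]
    have hbr : Br T [] y := by
      refine ⟨rfl, fun n hn => ?_⟩
      show pre y n ∈ T
      rw [hpre]
      obtain ⟨k, rfl⟩ : ∃ k, n = k + 1 := ⟨n - 1, by simp only [List.length_nil] at hn; omega⟩
      have h1 := ((hs (k + 1)).2 k (by omega)).1
      rw [List.take_of_length_le (by rw [(hs (k + 1)).1])] at h1
      exact h1
    refine ⟨y, hbr, fun z hz => ?_⟩
    by_contra hne
    exact hu ⟨z, y, hne, hz, hbr⟩

/-- Luzin: unicity is coanalytic. -/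
theorem an_unicity {T : (ℕ → ℕ) → Set (List ℕ)} (hT : TM T) :
    An (fun p => ¬ ∃! y, Br (T p) [] y) := by
  have h1 : An (fun p => ∃ x : (ℕ → ℕ) × (ℕ → ℕ), x.1 ≠ x.2 ∧ Br (T p) [] x.1 ∧
      Br (T p) [] x.2) := by
    refine An.proj (Y := (ℕ → ℕ) × (ℕ → ℕ)) (C := fun q => q.2.1 ≠ q.2.2 ∧ Br (T q.1) [] q.2.1 ∧
      Br (T q.1) [] q.2.2) (Ms.and ?_ (Ms.and ?_ ?_))
    · have : {q : (ℕ → ℕ) × (ℕ → ℕ) × (ℕ → ℕ) | q.2.1 ≠ q.2.2} =
          {q | q.2.1 = q.2.2}ᶜ := rfl
      show MeasurableSet _
      rw [this]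
      exact (isClosed_eq (continuous_fst.comp continuous_snd)
        (continuous_snd.comp continuous_snd)).measurableSet.compl
    · exact (ms_Br hT []).preimage (f := fun q : (ℕ → ℕ) × (ℕ → ℕ) × (ℕ → ℕ) => (q.1, q.2.1))
        (measurable_fst.prodMk (measurable_fst.comp measurable_snd))
    · exact (ms_Br hT []).preimage (f := fun q : (ℕ → ℕ) × (ℕ → ℕ) × (ℕ → ℕ) => (q.1, q.2.2))
        (measurable_fst.prodMk (measurable_snd.comp measurable_snd))
  have hD : ∀ (σ : List ℕ) (a : ℕ), An (fun p => ¬ Dom (T p) σ a) := by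
    intro σ a
    refine (An.ex (P := fun b p => b ≠ a ∧ σ ++ [b] ∈ T p ∧ E (T p) (T p) (σ ++ [a]) (σ ++ [b]))
      (fun b => (An.of_ms (Ms.const _)).and ((An.of_ms (hT _)).and (an_E hT hT _ _)))).congr ?_
    intro p
    unfold Dom
    push Not
    rfl
  have hn : ∀ n s, An (fun p => ¬ Dn (T p) n s) := by
    intro n s
    refine ((An.of_ms (Ms.const (¬ s.length = n))).or (An.ex (P := fun i p => i < n ∧
      (¬ s.take (i + 1) ∈ T p ∨ ¬ Dom (T p) (s.take i) (s.getD i 0)))
      (fun i => (An.of_ms (Ms.const _)).and ((An.of_ms (hT _).not).or (hD _ _))))).congr ?_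
    intro p
    unfold Dn
    constructor
    · rintro (h | ⟨i, hi, h⟩) ⟨h1, h2⟩
      · exact h h1
      · rcases h with h | h
        · exact h (h2 i hi).1
        · exact h (h2 i hi).2
    · intro h
      by_contra hcon
      push Not at hcon
      exact h hcon
  refine (h1.or (An.ex fun n => An.all fun s => hn n s)).congr ?_
  intro p
  rw [unicity]
  constructor
  · rintro (⟨⟨y, z⟩, h⟩ | ⟨n, h⟩) ⟨h2, h3⟩
    · exact h2 ⟨y, z, h⟩
    · obtain ⟨s, hs⟩ := h3 n
      exact h s hs
  · intro h
    by_contra hcon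
    push Not at hcon
    apply h
    refine ⟨?_, fun n => hcon.2 n⟩
    rintro ⟨y, z, h1, h2, h3⟩
    exact hcon.1 (y, z) h1 h2 h3

end Q204.CK
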