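import Pool.Agent.Q204.LL.Defs
import Pool.Agent.Q204.TJ.Defs

set_option autoImplicit false

/-!
# Closed choice and the Cantor-Bendixson problem on Baire space
-/

namespace Q204.CK

open Q204.WD Q204.LL Q204.TJ

/-- Closed choice on Baire space: given (a name of) a nonempty closed set, find an element. -/
def CN : Problem := closedOf

/-- The perfect kernel: the largest perfect subset. -/
def PKer (A : Set (ℕ → ℕ)) : Set (ℕ → ℕ) := ⋃₀ {P | Perfect P ∧ P ⊆ A}

/-- The scattered part. -/
def Scat (A : Set (ℕ → ℕ)) : Set (ℕ → ℕ) := A \ PKer A

/-- `s` codes a sequence `(b_i, x_i)` in `{0,1} × ℕ^ℕ` with `S = {x_i : b_i = 1}`; here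
`b_i = s ⟨i, 0⟩` and `x_i k = s ⟨i, k + 1⟩`. -/
def IsList (S : Set (ℕ → ℕ)) (s : ℕ → ℕ) : Prop :=
  (∀ i, s (Nat.pair i 0) ≤ 1) ∧
    {x | ∃ i, s (Nat.pair i 0) = 1 ∧ x = fun k => s (Nat.pair i (k + 1))} = S

open Classical in
/-- `0` if `S` is infinite, and `|S| + 1` otherwise. -/
noncomputable def cnt (S : Set (ℕ → ℕ)) : ℕ := if S.Finite then S.ncard + 1 else 0

/-- The weak listing problem of the scattered part. -/
def WScList : Problem := fun p => {s | IsList (Scat (closedOf p)) s}

/-- The cardinality of the scattered part (a natural number `n` is named by the sequences with first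
element `n`). -/
def ScCount : Problem := fun p => {s | s 0 = cnt (Scat (closedOf p))}

/-- The perfect kernel problem. -/
def PK : Problem := fun p => {s | closedOf s = PKer (closedOf p)}

/-- The product with common input: a solution is a pair of solutions. -/
def both (f g : Problem) : Problem := fun p => {s | fstP s ∈ f p ∧ sndP s ∈ g p}

/-- List and cardinality of the scattered part. -/
def ScList : Problem := both WScList ScCount

/-- The Cantor-Bendixson problem. -/
def CB : Problem := both PK ScList

end Q204.CK
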