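import Mathlib

set_option autoImplicit false

/-!
# Comparison of trees by a closed game
-/

namespace Q204.CK

/-- A winning set for comparing `T` with `S`: every move in `T` can be answered in `S`. -/
def Win (T S : Set (List ℕ)) (W : Set (List ℕ × List ℕ)) : Prop :=
  ∀ σ τ, (σ, τ) ∈ W → ∀ a, σ ++ [a] ∈ T → ∃ b, τ ++ [b] ∈ S ∧ (σ ++ [a], τ ++ [b]) ∈ W

/-- The rank of `σ` in `T` is at most the rank of `τ` in `S`. -/
def E (T S : Set (List ℕ)) (σ τ : List ℕ) : Prop := ∃ W, Win T S W ∧ (σ, τ) ∈ W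

theorem E.step {T S : Set (List ℕ)} {σ τ : List ℕ} (h : E T S σ τ) {a : ℕ} (ha : σ ++ [a] ∈ T) :
    ∃ b, τ ++ [b] ∈ S ∧ E T S (σ ++ [a]) (τ ++ [b]) := by
  obtain ⟨W, hW, h⟩ := h
  obtain ⟨b, hb, hb'⟩ := hW σ τ h a ha
  exact ⟨b, hb, W, hW, hb'⟩

theorem E_of_step {T S : Set (List ℕ)} {σ τ : List ℕ}
    (h : ∀ a, σ ++ [a] ∈ T → ∃ b, τ ++ [b] ∈ S ∧ E T S (σ ++ [a]) (τ ++ [b])) : E T S σ τ := by
  refine ⟨{x | x = (σ, τ) ∨ E T S x.1 x.2}, ?_, Or.inl rfl⟩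
  intro σ' τ' h' a ha
  rcases h' with h' | h'
  · obtain ⟨rfl, rfl⟩ := Prod.mk.inj h'
    obtain ⟨b, hb, hb'⟩ := h a ha
    exact ⟨b, hb, Or.inr hb'⟩
  · obtain ⟨b, hb, hb'⟩ := E.step h' ha
    exact ⟨b, hb, Or.inr hb'⟩

theorem not_E {T S : Set (List ℕ)} {σ τ : List ℕ} (h : ¬ E T S σ τ) :
    ∃ a, σ ++ [a] ∈ T ∧ ∀ b, τ ++ [b] ∈ S → ¬ E T S (σ ++ [a]) (τ ++ [b]) := by
  by_contra hcon
  push Not at hcon
  exact h (E_of_step hcon)

/-- Comparability. -/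
theorem E_total {T S : Set (List ℕ)} {σ τ : List ℕ} (h : ¬ E T S σ τ) :
    ∃ a, σ ++ [a] ∈ T ∧ E S T τ (σ ++ [a]) := by
  obtain ⟨a, ha, ha'⟩ := not_E h
  refine ⟨a, ha, {x | ∀ b, x.1 ++ [b] ∈ S → ¬ E T S x.2 (x.1 ++ [b])}, ?_, ha'⟩
  intro τ' σ' h' b hb
  obtain ⟨a', ha1, ha2⟩ := not_E (h' b hb)
  exact ⟨a', ha1, ha2⟩

theorem E_of_child {T S : Set (List ℕ)} {σ τ : List ℕ} {c : ℕ} (hc : σ ++ [c] ∈ T)
    (h : E S T τ (σ ++ [c])) : E S T τ σ := by
  refine ⟨{x | ∃ c, x.2 ++ [c] ∈ T ∧ E S T x.1 (x.2 ++ [c])}, ?_, c, hc, h⟩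
  rintro τ' σ' ⟨c', hc', h'⟩ b hb
  obtain ⟨c'', h1, h2⟩ := h'.step hb
  exact ⟨c', hc', c'', h1, h2⟩

/-- `y` is a branch of `T` through `σ`. -/
def Br (T : Set (List ℕ)) (σ : List ℕ) (y : ℕ → ℕ) : Prop :=
  (List.range σ.length).map y = σ ∧ ∀ n, σ.length < n → (List.range n).map y ∈ T

/-- Construction of a branch by dependent choice. -/
theorem branch_of_inv {T : Set (List ℕ)} (Inv : List ℕ → Prop) {σ : List ℕ} (h0 : Inv σ)
    (hstep : ∀ σ', Inv σ' → ∃ a, σ' ++ [a] ∈ T ∧ Inv (σ' ++ [a])) : ∃ y, Br T σ y := by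
  classical
  choose! nx hnx hnx' using hstep
  obtain ⟨seq, hseq0, hseq⟩ : ∃ seq : ℕ → List ℕ, seq 0 = σ ∧
      ∀ n, seq (n + 1) = seq n ++ [nx (seq n)] :=
    ⟨fun n => Nat.rec σ (fun _ s => s ++ [nx s]) n, rfl, fun n => rfl⟩
  have hInv : ∀ n, Inv (seq n) := by
    intro n
    induction n with
    | zero => rw [hseq0]; exact h0
    | succ n ih => rw [hseq]; exact hnx' _ ih
  have hlen : ∀ n, (seq n).length = σ.length + n := by
    intro n
    induction n with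
    | zero => rw [hseq0]; rfl
    | succ n ih =>
      rw [hseq, List.length_append, ih]
      simp
      omega
  let y : ℕ → ℕ := fun i => (seq (i + 1)).getD i 0
  have hpre : ∀ m n, m ≤ n → seq m <+: seq n := by
    intro m n hmn
    induction hmn with
    | refl => exact List.prefix_refl _
    | step _ ih =>
      rw [hseq]
      exact ih.trans (List.prefix_append _ _)
  have hy : ∀ n, (List.range (seq n).length).map y = seq n := by
    intro n
    apply List.ext_getElem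
    · simp
    · intro i h1 h2
      simp only [List.getElem_map, List.getElem_range]
      show (seq (i + 1)).getD i 0 = _
      have h3 : i < (seq (i + 1)).length := by
        rw [hlen]
        omega
      rw [List.getD_eq_getElem _ _ h3]
      rcases le_total n (i + 1) with h | h
      · exact ((hpre _ _ h).getElem h2).symm
      · exact (hpre _ _ h).getElem h3
  refine ⟨y, by have := hy 0; rwa [hseq0] at this, fun n hn => ?_⟩
  obtain ⟨k, rfl⟩ : ∃ k, n = σ.length + (k + 1) := ⟨n - σ.length - 1, by omega⟩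
  have h1 := hy (k + 1)
  rw [hlen] at h1
  rw [h1, hseq]
  exact hnx _ (hInv k)

/-- A branch can be copied. -/
theorem E.branch {T S : Set (List ℕ)} {σ τ : List ℕ} (h : E T S σ τ) {y : ℕ → ℕ}
    (hy : Br T σ y) : ∃ z, Br S τ z := by
  obtain ⟨hy1, hy2⟩ := hy
  apply branch_of_inv (fun τ' => ∃ n, σ.length ≤ n ∧ E T S ((List.range n).map y) τ')
    ⟨σ.length, le_rfl, by rw [hy1]; exact h⟩
  rintro τ' ⟨n, hn, hE⟩
  have h1 : (List.range n).map y ++ [y n] ∈ T := by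
    have := hy2 (n + 1) (by omega)
    rw [List.range_succ, List.map_append] at this
    exact this
  obtain ⟨b, hb, hb'⟩ := hE.step h1
  refine ⟨b, hb, n + 1, by omega, ?_⟩
  rw [List.range_succ, List.map_append]
  exact hb'

/-- Everything compares with an ill-founded tree. -/
theorem E_of_branch {T S : Set (List ℕ)} {σ τ : List ℕ} {z : ℕ → ℕ} (hz : Br S τ z) :
    E T S σ τ := by
  refine ⟨{x | ∃ n, τ.length ≤ n ∧ x.2 = (List.range n).map z}, ?_, τ.length, le_rfl, hz.1.symm⟩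
  rintro σ' τ' ⟨n, hn, h⟩ a _
  simp only at h
  subst h
  have h1 : (List.range n).map z ++ [z n] = (List.range (n + 1)).map z := by
    rw [List.range_succ, List.map_append]
    rfl
  refine ⟨z n, ?_, n + 1, by omega, h1⟩
  rw [h1]
  exact hz.2 _ (by omega)

/-- A strict self comparison gives a branch. -/
theorem branch_of_cycle {T S : Set (List ℕ)} {σ τ : List ℕ} (h : E T S σ τ) {a : ℕ}
    (ha : σ ++ [a] ∈ T) (h' : E S T τ (σ ++ [a])) : ∃ y, Br T σ y := by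
  apply branch_of_inv (fun σ' => ∃ τ', E T S σ' τ' ∧ ∃ a, σ' ++ [a] ∈ T ∧ E S T τ' (σ' ++ [a]))
    ⟨τ, h, a, ha, h'⟩
  rintro σ' ⟨τ', h1, a', ha', h2⟩
  obtain ⟨b, hb, hb'⟩ := h1.step ha'
  obtain ⟨a'', ha'', hE⟩ := h2.step hb
  exact ⟨a', ha', _, hb', a'', ha'', hE⟩

end Q204.CK
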