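import Pool.Agent.Q204.CK.Anal
import Pool.Agent.Q204.CK.Defs

set_option autoImplicit false

/-!
# The perfect kernel of a closed subset of Baire space
-/

namespace Q204.CK

open Q204.WD MeasureTheory Topology

/-- The cylinder of a finite sequence. -/
def Cyl (u : List ℕ) : Set (ℕ → ℕ) := {x | pre x u.length = u}

theorem isOpen_Cyl (u : List ℕ) : IsOpen (Cyl u) := LL.isOpen_pre (fun l => l = u) u.length

theorem isClosed_Cyl (u : List ℕ) : IsClosed (Cyl u) := LL.isClosed_pre (fun l => l = u) u.length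

theorem mem_Cyl_pre (x : ℕ → ℕ) (n : ℕ) : x ∈ Cyl (pre x n) := by
  show pre x (pre x n).length = pre x n
  rw [pre_length]

theorem mem_Cyl_pre_iff {x y : ℕ → ℕ} {n : ℕ} : y ∈ Cyl (pre x n) ↔ pre y n = pre x n := by
  show pre y (pre x n).length = pre x n ↔ _
  rw [pre_length]

/-- Accumulation points in terms of initial segments. -/
theorem accPt_iff {x : ℕ → ℕ} {C : Set (ℕ → ℕ)} :
    AccPt x (Filter.principal C) ↔ ∀ n, ∃ y ∈ C, y ≠ x ∧ pre y n = pre x n := by
  rw [accPt_iff_nhds]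
  constructor
  · intro h n
    obtain ⟨y, hy, hne⟩ := h (Cyl (pre x n)) ((isOpen_Cyl _).mem_nhds (mem_Cyl_pre x n))
    exact ⟨y, hy.2, hne, mem_Cyl_pre_iff.1 hy.1⟩
  · intro h U hU
    obtain ⟨V, hVU, hV, hxV⟩ := mem_nhds_iff.1 hU
    obtain ⟨n, hn⟩ := LL.isOpen_iff_pre.1 hV x hxV
    obtain ⟨y, hy, hne, hpre⟩ := h n
    exact ⟨y, ⟨hVU (hn y hpre), hy⟩, hne⟩

theorem perfect_not_countable {P : Set (ℕ → ℕ)} (hP : Perfect P) (hne : P.Nonempty) :
    ¬ P.Countable := by
  let := TopologicalSpace.upgradeIsCompletelyMetrizable (ℕ → ℕ)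
  obtain ⟨f, hf, hfc, hfi⟩ := hP.exists_nat_bool_injection hne
  intro hc
  have h1 : (Set.range f).Countable := hc.mono hf
  have h2 : Countable (ℕ → Bool) := by
    rw [← Set.countable_univ_iff, ← Set.image_univ] at *
    exact (Set.countable_of_injective_of_countable_image (hfi.injOn) h1)
  obtain ⟨g, hg⟩ := exists_surjective_nat (ℕ → Bool)
  obtain ⟨n, hn⟩ := hg (fun n => !(g n n))
  have h3 := congrFun hn n
  simp at h3

theorem perfect_inter_Cyl {P : Set (ℕ → ℕ)} (hP : Perfect P) (u : List ℕ) :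
    Perfect (P ∩ Cyl u) := by
  refine ⟨hP.closed.inter (isClosed_Cyl u), ?_⟩
  rw [Set.inter_comm]
  exact hP.acc.open_inter (isOpen_Cyl u)

section
variable {A : Set (ℕ → ℕ)} (hA : IsClosed A)
include hA

/-- The Cantor-Bendixson theorem. -/
theorem PKer_spec : Perfect (PKer A) ∧ (Scat A).Countable := by
  obtain ⟨V, D, hV, hD, hVD⟩ := exists_countable_union_perfect_of_isClosed hA
  have h1 : PKer A = D := by
    apply Set.Subset.antisymm
    · apply Set.sUnion_subset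
      rintro P ⟨hP, hPA⟩ x hx
      by_contra hxD
      have hopen : IsOpen Dᶜ := hD.closed.isOpen_compl
      obtain ⟨n, hn⟩ := LL.isOpen_iff_pre.1 hopen x hxD
      apply perfect_not_countable (perfect_inter_Cyl hP (pre x n)) ⟨x, hx, mem_Cyl_pre x n⟩
      apply hV.mono
      rintro y ⟨hyP, hyC⟩
      have hyA := hPA hyP
      rw [hVD] at hyA
      rcases hyA with h | h
      · exact h
      · exact absurd h (hn y (mem_Cyl_pre_iff.1 hyC))
    · apply Set.subset_sUnion_of_mem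
      refine ⟨hD, ?_⟩
      rw [hVD]
      exact Set.subset_union_right
  refine ⟨by rw [h1]; exact hD, ?_⟩
  unfold Scat
  rw [h1]
  apply hV.mono
  rintro x ⟨hx, hxD⟩
  rw [hVD] at hx
  exact hx.resolve_right hxD

omit hA in
theorem PKer_subset : PKer A ⊆ A := Set.sUnion_subset fun _ h => h.2

theorem countable_Cyl_iff (u : List ℕ) : (A ∩ Cyl u).Countable ↔ PKer A ∩ Cyl u = ∅ := by
  obtain ⟨hP, hS⟩ := PKer_spec hA
  constructor
  · intro h
    by_contra hne
    rw [← ne_eq, ← Set.nonempty_iff_ne_empty] at hne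
    exact perfect_not_countable (perfect_inter_Cyl hP u) hne
      (h.mono (Set.inter_subset_inter_left _ (PKer_subset)))
  · intro h
    apply hS.mono
    rintro x ⟨hx, hxu⟩
    refine ⟨hx, fun hxP => ?_⟩
    have : x ∈ PKer A ∩ Cyl u := ⟨hxP, hxu⟩
    rw [h] at this
    exact this

theorem exists_isolated {x : ℕ → ℕ} (hx : x ∈ Scat A) (n : ℕ) :
    ∃ w, pre x n <+: w ∧ ∃! z, z ∈ A ∩ Cyl w := by
  obtain ⟨hP, hS⟩ := PKer_spec hA
  obtain ⟨m₀, hm₀⟩ := LL.isOpen_iff_pre.1 hP.closed.isOpen_compl x hx.2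
  set m := max m₀ n with hm
  set C := A ∩ Cyl (pre x m) with hC
  have hCc : C.Countable := by
    rw [hC, countable_Cyl_iff hA]
    rw [Set.eq_empty_iff_forall_notMem]
    rintro y ⟨hyP, hyC⟩
    apply hm₀ y _ hyP
    have h1 := mem_Cyl_pre_iff.1 hyC
    exact pre_congr (fun i hi => pre_eq_iff.1 h1 i (lt_of_lt_of_le hi (le_max_left _ _)))
  have hCne : C.Nonempty := ⟨x, hx.1, mem_Cyl_pre x m⟩
  have hnp : ¬ Perfect C := fun h => perfect_not_countable h hCne hCc
  have hz : ∃ z ∈ C, ¬ AccPt z (Filter.principal C) := by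
    by_contra hcon
    push Not at hcon
    exact hnp ⟨hA.inter (isClosed_Cyl _), hcon⟩
  obtain ⟨z, hzC, hz⟩ := hz
  rw [accPt_iff] at hz
  push Not at hz
  obtain ⟨k, hk⟩ := hz
  refine ⟨pre z (max k m), ?_, z, ⟨hzC.1, mem_Cyl_pre z _⟩, ?_⟩
  · have h1 := mem_Cyl_pre_iff.1 hzC.2
    have h2 : pre x n <+: pre x m := pre_prefix (le_max_right _ _)
    rw [← h1] at h2
    exact h2.trans (pre_prefix (le_max_right _ _))
  · rintro y ⟨hyA, hyC⟩
    by_contra hne
    have h1 := mem_Cyl_pre_iff.1 hyC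
    apply hk y ⟨hyA, ?_⟩ hne (pre_congr (fun i hi => pre_eq_iff.1 h1 i
      (lt_of_lt_of_le hi (le_max_left _ _))))
    rw [mem_Cyl_pre_iff, ← mem_Cyl_pre_iff.1 hzC.2]
    exact pre_congr (fun i hi => pre_eq_iff.1 h1 i (lt_of_lt_of_le hi (le_max_right _ _)))

omit hA in
theorem isolated_mem {w : List ℕ} {z : ℕ → ℕ} (hz : z ∈ A ∩ Cyl w)
    (hu : ∀ y ∈ A ∩ Cyl w, y = z) : z ∈ Scat A := by
  refine ⟨hz.1, ?_⟩
  rintro ⟨P, ⟨hP, hPA⟩, hzP⟩
  have h1 := hP.acc z hzP
  rw [accPt_iff] at h1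
  obtain ⟨y, hy, hne, hpre⟩ := h1 w.length
  apply hne
  apply hu
  refine ⟨hPA hy, ?_⟩
  show pre y w.length = w
  rw [hpre]
  exact hz.2

/-- Uncountable closed sets contain dense-in-itself sequences. -/
theorem uncountable_iff : ¬ A.Countable ↔ ∃ X : ℕ → (ℕ → ℕ), (∀ i, X i ∈ A) ∧
    ∀ i n, ∃ j, X j ≠ X i ∧ pre (X j) n = pre (X i) n := by
  constructor
  · intro h
    obtain ⟨hP, hS⟩ := PKer_spec hA
    have hne : (PKer A).Nonempty := by
      by_contra hne
      rw [Set.not_nonempty_iff_eq_empty] at hne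
      apply h
      apply hS.mono
      intro x hx
      refine ⟨hx, fun hxP => ?_⟩
      rw [hne] at hxP
      exact hxP
    have : Nonempty (PKer A) := hne.to_subtype
    set X : ℕ → (ℕ → ℕ) := fun i => (TopologicalSpace.denseSeq (PKer A) i : ℕ → ℕ) with hX
    refine ⟨X, fun i => PKer_subset (TopologicalSpace.denseSeq (PKer A) i).2, fun i n => ?_⟩
    have h1 := hP.acc (X i) (TopologicalSpace.denseSeq (PKer A) i).2
    rw [accPt_iff] at h1
    obtain ⟨y, hy, hne', hpre⟩ := h1 n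
    obtain ⟨m, hm⟩ : ∃ m, y m ≠ X i m := by
      by_contra hcon
      push Not at hcon
      exact hne' (funext hcon)
    have hopen : IsOpen {z : PKer A | (z : ℕ → ℕ) ∈ Cyl (pre y (max n (m + 1)))} :=
      (isOpen_Cyl _).preimage continuous_subtype_val
    obtain ⟨j, hj⟩ := (TopologicalSpace.denseRange_denseSeq (PKer A)).exists_mem_open hopen
      ⟨⟨y, hy⟩, mem_Cyl_pre y _⟩
    have hj' : pre (X j) (max n (m + 1)) = pre y (max n (m + 1)) := mem_Cyl_pre_iff.1 hj
    refine ⟨j, fun heq => hm ?_, ?_⟩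
    · rw [← heq]
      exact (pre_eq_iff.1 hj' m (lt_of_lt_of_le (Nat.lt_succ_self m) (le_max_right _ _))).symm
    · rw [← hpre]
      exact pre_congr (fun a ha => pre_eq_iff.1 hj' a (lt_of_lt_of_le ha (le_max_left _ _)))
  · rintro ⟨X, hX, hd⟩ hc
    have hpre : Preperfect (Set.range X) := by
      rintro x ⟨i, rfl⟩
      rw [accPt_iff]
      intro n
      obtain ⟨j, hj, hj'⟩ := hd i n
      exact ⟨X j, ⟨j, rfl⟩, hj, hj'⟩
    have hperf := hpre.perfect_closure
    apply perfect_not_countable hperf ⟨X 0, subset_closure ⟨0, rfl⟩⟩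
    apply hc.mono
    apply closure_minimal _ hA
    rintro x ⟨i, rfl⟩
    exact hX i

end

end Q204.CK
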