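import Pool.Agent.Q204.CK.Names
import Pool.Agent.Q204.TJ.Tools

set_option autoImplicit false

/-!
# Closed choice is not reducible to the Cantor-Bendixson problem
-/

namespace Q204.CK

open Q204.WD Q204.LL Q204.TJ Encodable MeasureTheory

section
variable (h : List ℕ → List ℕ)

/-- The tree of the closed set computed from `p`. -/
def Tr (p : ℕ → ℕ) : Set (List ℕ) :=
  {s | ∀ l : List ℕ, encode l + 1 ∈ h (pre p s.length) → ¬ l <+: s}

/-- The closed set computed from `p`. -/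
def Bp (p : ℕ → ℕ) : Set (ℕ → ℕ) := {x | ∀ n, pre x n ∈ Tr h p}

/-- The part of the tree in a cylinder. -/
def TrC (w : List ℕ) (p : ℕ → ℕ) : Set (List ℕ) := {s | s ∈ Tr h p ∧ (s <+: w ∨ w <+: s)}

theorem tm_TrC (w : List ℕ) : TM (TrC h w) := fun s =>
  ms_pre (fun a => (∀ l : List ℕ, encode l + 1 ∈ h a → ¬ l <+: s) ∧ (s <+: w ∨ w <+: s)) s.length

theorem isClosed_Bp (p : ℕ → ℕ) : IsClosed (Bp h p) := by
  have : Bp h p = ⋂ n, {x | pre x n ∈ Tr h p} := by
    ext x
    simp [Bp]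
  rw [this]
  exact isClosed_iInter fun n => isClosed_pre (fun l => l ∈ Tr h p) n

theorem isClosed_BpRel : Ms (fun q : (ℕ → ℕ) × (ℕ → ℕ) => q.2 ∈ Bp h q.1) := by
  have hT : TM (Tr h) := fun s =>
    ms_pre (fun a => ∀ l : List ℕ, encode l + 1 ∈ h a → ¬ l <+: s) s.length
  exact Ms.all fun n => ms_mem_pre hT n

variable {h}

theorem pre_mem_iff {x : ℕ → ℕ} {w : List ℕ} {n : ℕ} : (pre x n <+: w ∨ w <+: pre x n) ↔
    ∀ i < min n w.length, w.getD i 0 = x i := by
  constructor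
  · rintro (h1 | h1) i hi
    · have h2 := (prefix_iff_getD.1 h1).2 i (by rw [pre_length]; omega)
      rw [pre_getD x n i (by omega)] at h2
      exact h2.symm
    · have h2 := (prefix_iff_getD.1 h1).2 i (by omega)
      rw [pre_getD x n i (by omega)] at h2
      exact h2
  · intro h1
    rcases le_total n w.length with h2 | h2
    · left
      rw [prefix_iff_getD]
      refine ⟨by rw [pre_length]; exact h2, fun i hi => ?_⟩
      rw [pre_length] at hi
      rw [pre_getD x n i hi, h1 i (by omega)]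
    · right
      rw [prefix_iff_getD]
      refine ⟨by rw [pre_length]; exact h2, fun i hi => ?_⟩
      rw [pre_getD x n i (by omega), h1 i (by omega)]

theorem mem_Cyl_iff {x : ℕ → ℕ} {w : List ℕ} : x ∈ Cyl w ↔ ∀ i < w.length, w.getD i 0 = x i := by
  constructor
  · intro h1 i hi
    have h2 : pre x w.length = w := h1
    rw [← h2, pre_getD x _ i hi]
  · intro h1
    show pre x w.length = w
    apply List.ext_getElem
    · simp
    · intro i hi1 hi2
      rw [pre_getElem, ← h1 i hi2, List.getD_eq_getElem _ _ hi2]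

theorem br_TrC (hh : Mono h) {w : List ℕ} {p y : ℕ → ℕ} :
    Br (TrC h w p) [] y ↔ y ∈ Bp h p ∩ Cyl w := by
  constructor
  · rintro ⟨-, h1⟩
    have h2 : ∀ n, 0 < n → pre y n ∈ TrC h w p := fun n hn => h1 n hn
    constructor
    · intro n
      rcases Nat.eq_zero_or_pos n with rfl | hn
      · intro l hl hl'
        have h3 := (h2 1 (by omega)).1 l
        apply h3 _ (hl'.trans (pre_prefix (Nat.zero_le 1)))
        have h4 : h (pre p 0) <+: h (pre p 1) := hh _ _ (pre_prefix (Nat.zero_le 1))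
        rw [pre_length] at hl ⊢
        exact h4.subset hl
      · exact (h2 n hn).1
    · rw [mem_Cyl_iff]
      intro i hi
      exact pre_mem_iff.1 (h2 w.length (by omega)).2 i (by omega)
  · rintro ⟨h1, h2⟩
    refine ⟨rfl, fun n _ => ⟨h1 n, ?_⟩⟩
    have h3 : pre y n <+: w ∨ w <+: pre y n := by
      rw [pre_mem_iff]
      intro i hi
      exact mem_Cyl_iff.1 h2 i (by omega)
    exact h3

theorem Bp_eq {p P : ℕ → ℕ} (_hh : Mono h) (hP : Conv (fun n => h (pre p n)) P) :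
    Bp h p = closedOf P := by
  ext x
  constructor
  · intro hx n l hl heq
    obtain ⟨N, hN⟩ := hP.2 (n + 1)
    have h1 : encode l + 1 ∈ h (pre p (max N l.length)) := by
      have h2 : h (pre p (max N l.length)) = pre P (h (pre p (max N l.length))).length := hP.1 _
      rw [h2]
      simp only [pre, List.mem_map, List.mem_range]
      exact ⟨n, hN _ (le_max_left _ _), hl⟩
    have h3 := hx (max N l.length) l
    rw [pre_length] at h3
    apply h3 h1
    have h4 : pre x l.length <+: pre x (max N l.length) := pre_prefix (le_max_right _ _)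
    rw [← heq] at h4
    exact h4
  · intro hx n l hl hl'
    rw [pre_length] at hl
    have h2 : h (pre p n) = pre P (h (pre p n)).length := hP.1 _
    rw [h2] at hl
    simp only [pre, List.mem_map, List.mem_range] at hl
    obtain ⟨i, _, hi⟩ := hl
    exact hx i l hi (prefix_eq_pre hl')

variable (h)

/-- Validity of the finite sequence `κ` as a part of a name of the perfect kernel. -/
def Vk (p : ℕ → ℕ) (κ : List ℕ) : Prop :=
  ∀ m < κ.length, ∀ u : List ℕ, κ.getD m 0 = encode u + 1 → (Bp h p ∩ Cyl u).Countable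

/-- Validity of the finite sequence `c` as a part of a list of the scattered part. -/
def Vl (p : ℕ → ℕ) (c : List ℕ) : Prop :=
  ∀ i, Nat.pair i 0 < c.length → c.getD (Nat.pair i 0) 0 ≤ 1 ∧ (c.getD (Nat.pair i 0) 0 = 1 →
    ∃ w : List ℕ, (∀ z ∈ Cyl w, Col c i z) ∧ ∃! z, z ∈ Bp h p ∩ Cyl w)

variable {h}

theorem an_unc (u : List ℕ) : An (fun p => ¬ (Bp h p ∩ Cyl u).Countable) := by
  refine (An.proj (Y := ℕ → ℕ → ℕ) (C := fun q => (∀ i, q.2 i ∈ Bp h q.1 ∧ q.2 i ∈ Cyl u) ∧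
    ∀ i n, ∃ j, q.2 j ≠ q.2 i ∧ pre (q.2 j) n = pre (q.2 i) n) ?_).congr ?_
  · have e1 : ∀ i, Measurable (fun q : (ℕ → ℕ) × (ℕ → ℕ → ℕ) => q.2 i) := fun i =>
      (measurable_pi_apply i).comp measurable_snd
    refine (Ms.all fun i => Ms.and ?_ ?_).and (Ms.all fun i => Ms.all fun n => Ms.ex fun j =>
      Ms.and ?_ ?_)
    · exact (isClosed_BpRel h).preimage (f := fun q : (ℕ → ℕ) × (ℕ → ℕ → ℕ) => (q.1, q.2 i))
        (measurable_fst.prodMk (e1 i))
    · exact (isClosed_Cyl u).measurableSet.preimage (e1 i)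
    · exact ((isClosed_eq continuous_fst continuous_snd).measurableSet.compl :
        MeasurableSet {x : (ℕ → ℕ) × (ℕ → ℕ) | x.1 = x.2}ᶜ).preimage ((e1 j).prodMk (e1 i))
    · have h3 : Ms (fun x : (ℕ → ℕ) × (ℕ → ℕ) => ∃ s : List ℕ, pre x.1 n = s ∧ pre x.2 n = s) :=
        Ms.ex fun s => ((ms_pre (fun l => l = s) n).preimage measurable_fst).and
          ((ms_pre (fun l => l = s) n).preimage measurable_snd)
      have h4 : Ms (fun x : (ℕ → ℕ) × (ℕ → ℕ) => pre x.1 n = pre x.2 n) := by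
        have : {x : (ℕ → ℕ) × (ℕ → ℕ) | pre x.1 n = pre x.2 n} =
            {x | ∃ s : List ℕ, pre x.1 n = s ∧ pre x.2 n = s} := by
          ext x
          constructor
          · intro hx
            exact ⟨_, hx, rfl⟩
          · rintro ⟨s, h1, h2⟩
            exact h1.trans h2.symm
        show MeasurableSet _
        rw [this]
        exact h3
      exact h4.preimage ((e1 j).prodMk (e1 i))
  · intro p
    rw [uncountable_iff ((isClosed_Bp h p).inter (isClosed_Cyl u))]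
    rfl

theorem an_not_valid (hh : Mono h) (κ c : List ℕ) : An (fun p => ¬ (Vk h p κ ∧ Vl h p c)) := by
  have h1 : An (fun p => ¬ Vk h p κ) := by
    refine (An.ex fun m : ℕ => An.ex fun u : List ℕ => (An.of_ms (Ms.const
      (m < κ.length ∧ κ.getD m 0 = encode u + 1))).and (an_unc (h := h) u)).congr ?_
    intro p
    unfold Vk
    push Not
    constructor
    · rintro ⟨m, u, ⟨a, b⟩, c⟩
      exact ⟨m, a, u, b, c⟩
    · rintro ⟨m, a, u, b, c⟩
      exact ⟨m, u, ⟨a, b⟩, c⟩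
  have h2 : An (fun p => ¬ Vl h p c) := by
    have e1 : ∀ w : List ℕ, An (fun p => ¬ ∃! z, z ∈ Bp h p ∩ Cyl w) := by
      intro w
      refine (an_unicity (tm_TrC h w)).congr (fun p => ?_)
      simp only [br_TrC hh]
    refine (An.ex fun i : ℕ => (An.of_ms (Ms.const (Nat.pair i 0 < c.length ∧
      1 < c.getD (Nat.pair i 0) 0))).or ((An.of_ms (Ms.const (Nat.pair i 0 < c.length ∧
      c.getD (Nat.pair i 0) 0 = 1))).and (An.all fun w : List ℕ =>
        (An.of_ms (Ms.const (¬ ∀ z ∈ Cyl w, Col c i z))).or (e1 w)))).congr ?_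
    intro p
    unfold Vl
    constructor
    · rintro ⟨i, ⟨a, b⟩ | ⟨⟨a, b⟩, d⟩⟩ hV
      · have := (hV i a).1
        omega
      · obtain ⟨w, hw1, hw2⟩ := (hV i a).2 b
        rcases d w with d | d
        · exact d hw1
        · exact d hw2
    · intro hV
      push Not at hV
      obtain ⟨i, a, b⟩ := hV
      refine ⟨i, ?_⟩
      by_cases hle : c.getD (Nat.pair i 0) 0 ≤ 1
      · obtain ⟨b1, b2⟩ := b hle
        right
        refine ⟨⟨a, b1⟩, fun w => ?_⟩
        by_cases hw : ∀ z ∈ Cyl w, Col c i z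
        · right
          exact b2 w hw
        · left
          exact hw
      · left
        exact ⟨a, not_le.1 hle⟩
  refine (h1.or h2).congr (fun p => ?_)
  tauto

/-- The input of the backward functional. -/
def inp (p : ℕ → ℕ) (κ c : List ℕ) (n₀ n : ℕ) : List ℕ :=
  joinL (pre p n) (joinL κ (joinL c (pre (fun _ => n₀) n)))

/-- The backward functional gives the output `j` at the place `n₀`. -/
def Out (k : List ℕ → List ℕ) (n₀ j : ℕ) (p : ℕ → ℕ) (κ c : List ℕ) : Prop :=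
  ∃ n, Nat.pair n₀ 0 < (k (inp p κ c n₀ n)).length ∧
    (k (inp p κ c n₀ n)).getD (Nat.pair n₀ 0) 0 = j

variable (h) in
/-- A valid finite sequence gives the output `j`. -/
def RR (k : List ℕ → List ℕ) (n₀ j : ℕ) (p : ℕ → ℕ) : Prop :=
  ∃ κ c : List ℕ, (Vk h p κ ∧ Vl h p c) ∧ Out k n₀ j p κ c

theorem an_not_RR (hh : Mono h) (k : List ℕ → List ℕ) (n₀ j : ℕ) :
    An (fun p => ¬ RR h k n₀ j p) := by
  refine (An.all fun κ : List ℕ => An.all fun c : List ℕ => (an_not_valid hh κ c).or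
    (An.of_ms (P := fun p => ¬ Out k n₀ j p κ c) (Ms.not (Ms.ex fun n =>
      ms_pre (fun a => Nat.pair n₀ 0 < (k (joinL a (joinL κ (joinL c
        (pre (fun _ => n₀) n))))).length ∧ (k (joinL a (joinL κ (joinL c
        (pre (fun _ => n₀) n))))).getD (Nat.pair n₀ 0) 0 = j) n)))).congr ?_
  intro p
  constructor
  · rintro h1 ⟨κ, c, h2, h3⟩
    rcases h1 κ c with h4 | h4
    · exact h4 h2
    · exact h4 h3
  · intro h1 κ c
    by_contra hcon
    push Not at hcon
    exact h1 ⟨κ, c, hcon.1, hcon.2⟩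

theorem pre_join2 (p q : ℕ → ℕ) (n : ℕ) : joinL (pre p n) (pre q n) = pre (join p q) (2 * n) := by
  rw [joinL_pre, min_self]

/-- Soundness. -/
theorem sound {p P : ℕ → ℕ} {k : List ℕ → List ℕ} (hh : Mono h) (hk : Mono k)
    (hP : Conv (fun n => h (pre p n)) P) {n₀ j : ℕ} (hn₀ : n₀ = cnt (Scat (closedOf P)))
    (hR : RR h k n₀ j p) : ∃ s ∈ CB P, ∀ y, Eval k (join p s) y → y (Nat.pair n₀ 0) = j := by
  obtain ⟨κ, c, ⟨hκ, hc⟩, n, hn1, hn2⟩ := hR
  have hB := Bp_eq hh hP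
  have hcl := isClosed_Bp h p
  obtain ⟨hPK, hS⟩ := PKer_spec hcl
  obtain ⟨K, hK1, hK2⟩ := exists_closed_name hPK.closed κ (fun m hm u hu =>
    (countable_Cyl_iff hcl u).1 (hκ m hm u hu))
  obtain ⟨L, hL1, hL2⟩ := exists_list hS c (fun i hi => (hc i hi).1) (fun i hi hi1 => by
    obtain ⟨w, hw, z, hz, hu⟩ := (hc i hi).2 hi1
    exact ⟨z, isolated_mem hz hu, hw z hz.2⟩)
  refine ⟨join K (join L (fun _ => n₀)), ?_, ?_⟩
  · rw [hB] at hK2 hL2
    refine ⟨?_, ?_, ?_⟩
    · show closedOf (fstP (join K (join L (fun _ => n₀)))) = _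
      rw [fst_join]
      exact hK2
    · show IsList _ (fstP (sndP (join K (join L (fun _ => n₀)))))
      rw [snd_join, fst_join]
      exact hL2
    · show sndP (sndP (join K (join L (fun _ => n₀)))) 0 = _
      rw [snd_join, snd_join]
      exact hn₀
  · intro y hy
    have hcv := hy.conv hk
    -- the input is an initial segment
    have h1 : ∃ M, inp p κ c n₀ n <+: pre (join p (join K (join L (fun _ => n₀)))) M := by
      refine ⟨2 * (n + 2 * (κ.length + 2 * (c.length + n))), ?_⟩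
      rw [← pre_join2]
      unfold inp
      apply joinL_prefix (pre_prefix (by omega))
      have e1 : n + 2 * (κ.length + 2 * (c.length + n)) ≥ 2 * (κ.length + 2 * (c.length + n)) := by
        omega
      refine List.IsPrefix.trans ?_ (pre_prefix e1)
      rw [← pre_join2]
      apply joinL_prefix
      · conv_lhs => rw [← hK1]
        exact pre_prefix (by omega)
      · have e2 : κ.length + 2 * (c.length + n) ≥ 2 * (c.length + n) := by omega
        refine List.IsPrefix.trans ?_ (pre_prefix e2)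
        rw [← pre_join2]
        apply joinL_prefix
        · conv_lhs => rw [← hL1]
          exact pre_prefix (by omega)
        · exact pre_prefix (by omega)
    obtain ⟨M, hM⟩ := h1
    have h2 := hk _ _ hM
    have h3 : k (pre (join p (join K (join L (fun _ => n₀)))) M) = pre y _ := hcv.1 M
    rw [h3] at h2
    have h4 := prefix_eq_pre h2
    rw [h4, pre_getD _ _ _ hn1] at hn2
    exact hn2

/-- Completeness. -/
theorem complete {p P : ℕ → ℕ} {k : List ℕ → List ℕ} (hh : Mono h) (hk : Mono k)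
    (hP : Conv (fun n => h (pre p n)) P)
    (hsol : ∀ s ∈ CB P, ∃ y, Eval k (join p s) y ∧ y ∈ closedOf p) :
    ∃ y ∈ closedOf p, RR h k (cnt (Scat (closedOf P))) (y (Nat.pair (cnt (Scat (closedOf P))) 0)) p
    := by
  set n₀ := cnt (Scat (closedOf P)) with hn₀
  have hB := Bp_eq hh hP
  have hcl := isClosed_Bp h p
  obtain ⟨hPK, hS⟩ := PKer_spec hcl
  obtain ⟨K, hK1, hK2⟩ := exists_closed_name hPK.closed [] (fun m hm => absurd hm (by simp))
  obtain ⟨L, hL1, hL2⟩ := exists_list hS [] (fun i hi => absurd hi (by simp))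
    (fun i hi => absurd hi (by simp))
  have hs : join K (join L (fun _ => n₀)) ∈ CB P := by
    rw [hB] at hK2 hL2
    refine ⟨?_, ?_, ?_⟩
    · show closedOf (fstP (join K (join L (fun _ => n₀)))) = _
      rw [fst_join]
      exact hK2
    · show IsList _ (fstP (sndP (join K (join L (fun _ => n₀)))))
      rw [snd_join, fst_join]
      exact hL2
    · show sndP (sndP (join K (join L (fun _ => n₀)))) 0 = _
      rw [snd_join, snd_join]
  obtain ⟨y, hy, hyp⟩ := hsol _ hs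
  refine ⟨y, hyp, ?_⟩
  have hcv := hy.conv hk
  obtain ⟨N, hN⟩ := hcv.2 (Nat.pair n₀ 0 + 1)
  refine ⟨pre K N, pre L N, ⟨?_, ?_⟩, N, ?_⟩
  · intro m hm u hu
    rw [pre_length] at hm
    rw [pre_getD K N m hm] at hu
    rw [countable_Cyl_iff hcl]
    rw [Set.eq_empty_iff_forall_notMem]
    rintro x ⟨hx1, hx2⟩
    rw [← hK2] at hx1
    exact hx1 m u hu hx2.symm
  · intro i hi
    rw [pre_length] at hi
    rw [pre_getD L N _ hi]
    refine ⟨hL2.1 i, fun hi1 => ?_⟩
    have hx : (fun k => L (Nat.pair i (k + 1))) ∈ Scat (Bp h p) := by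
      rw [← hL2.2]
      exact ⟨i, hi1, rfl⟩
    obtain ⟨w, hw1, hw2⟩ := exists_isolated hcl hx N
    refine ⟨w, fun z hz k hk => ?_, hw2⟩
    rw [pre_length] at hk
    rw [pre_getD L N _ hk]
    have h1 := (prefix_iff_getD.1 hw1).2 k (by
      rw [pre_length]
      have := Nat.right_le_pair i (k + 1)
      omega)
    have h2 : k < N := by
      have := Nat.right_le_pair i (k + 1)
      omega
    rw [pre_getD _ _ _ h2] at h1
    have h3 := hw1.length_le
    rw [pre_length] at h3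
    rw [← mem_Cyl_iff.1 hz k (by omega), ← h1]
  · have h1 : inp p (pre K N) (pre L N) n₀ N = pre (join p (join K (join L (fun _ => n₀))))
        (2 * N) := by
      unfold inp
      rw [pre_join2 L, joinL_pre K, joinL_pre p]
      congr 1
      omega
    have h2 := hcv.1 (2 * N)
    have h3 := hN (2 * N) (by omega)
    simp only at h2 h3
    rw [h1]
    refine ⟨by omega, ?_⟩
    rw [h2, pre_getD _ _ _ (by omega)]

end

theorem main : ¬ WRed CN CB := by
  rintro ⟨h, k, ⟨-, hh⟩, ⟨-, hk⟩, hr⟩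
  choose B₀ B₁ hB₀ hB₁ hAB₀ hAB₁ hcov hinter using fun n₀ : ℕ =>
    reduction (an_not_RR hh k n₀ 0) (an_not_RR hh k n₀ 1)
  choose F₀ hF₀ hF₀' using fun n₀ => (hB₀ n₀).closed
  choose F₁ hF₁ hF₁' using fun n₀ => (hB₁ n₀).closed
  set R : Set ((ℕ → ℕ) × (ℕ → ℕ)) := {x | ∀ n₀ : ℕ,
    (x.2 (Nat.pair n₀ 0) = 0 ∧ (x.1, fun i => x.2 (Nat.pair n₀ (i + 1))) ∈ F₀ n₀) ∨
    (x.2 (Nat.pair n₀ 0) = 1 ∧ (x.1, fun i => x.2 (Nat.pair n₀ (i + 1))) ∈ F₁ n₀)} with hR
  have hRc : IsClosed R := by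
    have e1 : ∀ n₀ : ℕ, Continuous (fun x : (ℕ → ℕ) × (ℕ → ℕ) =>
        ((x.1, fun i => x.2 (Nat.pair n₀ (i + 1))) : (ℕ → ℕ) × (ℕ → ℕ))) := fun n₀ =>
      continuous_fst.prodMk (continuous_pi fun i => (continuous_apply _).comp continuous_snd)
    have e2 : ∀ n₀ a : ℕ, IsClosed {x : (ℕ → ℕ) × (ℕ → ℕ) | x.2 (Nat.pair n₀ 0) = a} :=
      fun n₀ a => isClosed_eq ((continuous_apply _).comp continuous_snd) continuous_const
    have : R = ⋂ n₀ : ℕ,
        (({x : (ℕ → ℕ) × (ℕ → ℕ) | x.2 (Nat.pair n₀ 0) = 0} ∩ (fun x : (ℕ → ℕ) × (ℕ → ℕ) =>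
        ((x.1, fun i => x.2 (Nat.pair n₀ (i + 1))) : (ℕ → ℕ) × (ℕ → ℕ))) ⁻¹' F₀ n₀) ∪
        ({x : (ℕ → ℕ) × (ℕ → ℕ) | x.2 (Nat.pair n₀ 0) = 1} ∩ (fun x : (ℕ → ℕ) × (ℕ → ℕ) =>
        ((x.1, fun i => x.2 (Nat.pair n₀ (i + 1))) : (ℕ → ℕ) × (ℕ → ℕ))) ⁻¹' F₁ n₀)) := by
      ext x
      simp only [hR, Set.mem_ofPred_eq, Set.mem_iInter]
      rfl
    rw [this]
    exact isClosed_iInter fun n₀ => ((e2 n₀ 0).inter ((hF₀ n₀).preimage (e1 n₀))).union
      ((e2 n₀ 1).inter ((hF₁ n₀).preimage (e1 n₀)))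
  set p := nm R with hp
  have hpR : closedOf p = {x | (p, x) ∈ R} := closedOf_nm R hRc
  -- the instance is nonempty
  have hne : p ∈ dom CN := by
    have hchoice : ∀ n₀ : ℕ, ∃ (j : ℕ) (y : ℕ → ℕ), (j = 0 ∧ (p, y) ∈ F₀ n₀) ∨
        (j = 1 ∧ (p, y) ∈ F₁ n₀) := by
      intro n₀
      rcases hcov n₀ p with h1 | h1
      · obtain ⟨y, hy⟩ := (hF₀' n₀ p).1 h1
        exact ⟨0, y, Or.inl ⟨rfl, hy⟩⟩
      · obtain ⟨y, hy⟩ := (hF₁' n₀ p).1 h1
        exact ⟨1, y, Or.inr ⟨rfl, hy⟩⟩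
    choose j y hjy using hchoice
    refine ⟨fun m => if (Nat.unpair m).2 = 0 then j (Nat.unpair m).1
      else y (Nat.unpair m).1 ((Nat.unpair m).2 - 1), ?_⟩
    show _ ∈ closedOf p
    rw [hpR]
    intro n₀
    simp only [Nat.unpair_pair, if_true, Nat.succ_ne_zero, if_false, Nat.add_sub_cancel]
    exact hjy n₀
  obtain ⟨P, hPe, -, hs⟩ := hr p hne
  have hP := hPe.conv hh
  have hsol : ∀ s ∈ CB P, ∃ y, Eval k (join p s) y ∧ y ∈ closedOf p := hs
  obtain ⟨y₀, hy₀, hRR⟩ := complete hh hk hP hsol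
  set n₀ := cnt (Scat (closedOf P)) with hn₀
  have hval : ∀ y ∈ closedOf p, (y (Nat.pair n₀ 0) = 0 ∧ B₀ n₀ p) ∨
      (y (Nat.pair n₀ 0) = 1 ∧ B₁ n₀ p) := by
    intro y hy
    rw [hpR] at hy
    rcases hy n₀ with ⟨h1, h2⟩ | ⟨h1, h2⟩
    · exact Or.inl ⟨h1, (hF₀' n₀ p).2 ⟨_, h2⟩⟩
    · exact Or.inr ⟨h1, (hF₁' n₀ p).2 ⟨_, h2⟩⟩
  have hnot : ¬ (B₀ n₀ p ∧ B₁ n₀ p) := by
    rintro ⟨h1, h2⟩
    obtain ⟨h3, h4⟩ := hinter n₀ p h1 h2
    rcases hval y₀ hy₀ with ⟨h5, -⟩ | ⟨h5, -⟩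
    · rw [h5] at hRR
      exact h3 hRR
    · rw [h5] at hRR
      exact h4 hRR
  have hcase : ∀ j, RR h k n₀ j p → ∃ y ∈ closedOf p, y (Nat.pair n₀ 0) = j := by
    intro j hj
    obtain ⟨s, hs1, hs2⟩ := sound hh hk hP hn₀ hj
    obtain ⟨y, hy1, hy2⟩ := hsol s hs1
    exact ⟨y, hy2, hs2 y hy1⟩
  rcases Classical.em (B₀ n₀ p) with h1 | h1
  · have h2 : ¬ B₁ n₀ p := fun h2 => hnot ⟨h1, h2⟩
    have h3 : RR h k n₀ 1 p := by
      by_contra h3
      exact h2 (hAB₁ n₀ p h3)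
    obtain ⟨y, hy1, hy2⟩ := hcase 1 h3
    rcases hval y hy1 with ⟨h4, -⟩ | ⟨-, h4⟩
    · omega
    · exact h2 h4
  · have h3 : RR h k n₀ 0 p := by
      by_contra h3
      exact h1 (hAB₀ n₀ p h3)
    obtain ⟨y, hy1, hy2⟩ := hcase 0 h3
    rcases hval y hy1 with ⟨-, h4⟩ | ⟨h4, -⟩
    · exact h1 h4
    · omega

/-- `ScList` is reducible to `CB`. -/
theorem scList_le : WRed ScList CB := by
  refine ⟨fun l => l, fun l => odds (odds l), ⟨Computable.id, fun _ _ h => h⟩,
    ⟨(primrec_odds.comp primrec_odds).to_comp, fun _ _ h => mono_odds _ _ (mono_odds _ _ h)⟩, ?_⟩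
  intro p _
  refine ⟨p, (conv_pre p).eval, ?_, ?_⟩
  · have hcl : IsClosed (closedOf p) := by
      have h1 := Bp_eq (h := fun l => l) (fun _ _ h => h) (conv_pre p)
      rw [← h1]
      exact isClosed_Bp _ p
    obtain ⟨hPK, hS⟩ := PKer_spec hcl
    obtain ⟨K, hK1, hK2⟩ := exists_closed_name hPK.closed [] (fun m hm => absurd hm (by simp))
    obtain ⟨L, hL1, hL2⟩ := exists_list hS [] (fun i hi => absurd hi (by simp))
      (fun i hi => absurd hi (by simp))
    refine ⟨join K (join L (fun _ => cnt (Scat (closedOf p)))), ?_, ?_, ?_⟩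
    · show closedOf (fstP _) = _
      rw [fst_join]
      exact hK2
    · show IsList _ (fstP (sndP _))
      rw [snd_join, fst_join]
      exact hL2
    · show sndP (sndP _) 0 = _
      rw [snd_join, snd_join]
  · rintro q ⟨-, hq⟩
    refine ⟨sndP q, ?_, hq⟩
    have h1 := (conv_pre (join p q)).odds
    rw [← join_fst_snd q] at h1
    have h2 := h1.odds
    rw [join_fst_snd q] at h2
    exact h2.eval

end Q204.CK
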