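import Pool.Agent.Q204.CK.Kernel
import Pool.Agent.Q204.WD.Comp
import Pool.Agent.Q204.LL.Core

set_option autoImplicit false

/-!
# Names of closed sets and of lists extending finite sequences; self-referential names
-/

namespace Q204.CK

open Q204.WD Q204.LL Encodable

theorem exists_closed_name {A : Set (ℕ → ℕ)} (hA : IsClosed A) (κ : List ℕ)
    (hκ : ∀ m < κ.length, ∀ u : List ℕ, κ.getD m 0 = encode u + 1 → A ∩ Cyl u = ∅) :
    ∃ K, pre K κ.length = κ ∧ closedOf K = A := by
  classical
  let K : ℕ → ℕ := fun n => if n < κ.length then κ.getD n 0 else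
    match (decode (n - κ.length) : Option (List ℕ)) with
    | none => 0
    | some u => if A ∩ Cyl u = ∅ then encode u + 1 else 0
  have hK1 : ∀ n, n < κ.length → K n = κ.getD n 0 := fun n hn => if_pos hn
  have hK2 : ∀ u : List ℕ, A ∩ Cyl u = ∅ → K (κ.length + encode u) = encode u + 1 := by
    intro u hu
    simp only [K]
    rw [if_neg (by omega)]
    have : κ.length + encode u - κ.length = encode u := by omega
    rw [this]
    simp only [encodek]
    rw [if_pos hu]
  have hK3 : ∀ (n : ℕ) (u : List ℕ), K n = encode u + 1 → A ∩ Cyl u = ∅ := by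
    intro n u hn
    by_cases h1 : n < κ.length
    · rw [hK1 n h1] at hn
      exact hκ n h1 u hn
    · simp only [K] at hn
      rw [if_neg h1] at hn
      rcases hd : (decode (n - κ.length) : Option (List ℕ)) with _ | u'
      · rw [hd] at hn
        simp at hn
      · rw [hd] at hn
        simp only at hn
        split_ifs at hn with h2
        · have h3 : encode u' = encode u := by omega
          rw [← encode_injective h3]
          exact h2
  refine ⟨K, ?_, ?_⟩
  · apply List.ext_getElem
    · simp
    · intro i h1 h2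
      rw [pre_getElem, hK1 i h2, List.getD_eq_getElem _ _ h2]
  · ext x
    constructor
    · intro hx
      by_contra hxA
      obtain ⟨n, hn⟩ := isOpen_iff_pre.1 hA.isOpen_compl x hxA
      have h1 : A ∩ Cyl (pre x n) = ∅ := by
        rw [Set.eq_empty_iff_forall_notMem]
        rintro y ⟨hyA, hyC⟩
        exact hn y (mem_Cyl_pre_iff.1 hyC) hyA
      exact hx _ _ (hK2 _ h1) (by simp)
    · intro hx n u hn heq
      have h1 := hK3 n u hn
      have h2 : x ∈ A ∩ Cyl u := ⟨hx, heq.symm⟩
      rw [h1] at h2
      exact h2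

theorem exists_list {B : Set (ℕ → ℕ)} (hB : B.Countable) (c : List ℕ)
    (hc : ∀ i, Nat.pair i 0 < c.length → c.getD (Nat.pair i 0) 0 ≤ 1)
    (h : ∀ i, Nat.pair i 0 < c.length → c.getD (Nat.pair i 0) 0 = 1 → ∃ z ∈ B, Col c i z) :
    ∃ L, pre L c.length = c ∧ IsList B L := by
  classical
  have hz : ∀ i, ∃ z : ℕ → ℕ, (Nat.pair i 0 < c.length → c.getD (Nat.pair i 0) 0 = 1 → z ∈ B) ∧
      Col c i z := by
    intro i
    by_cases h1 : Nat.pair i 0 < c.length ∧ c.getD (Nat.pair i 0) 0 = 1
    · obtain ⟨z, hz1, hz2⟩ := h i h1.1 h1.2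
      exact ⟨z, fun _ _ => hz1, hz2⟩
    · exact ⟨fun k => c.getD (Nat.pair i (k + 1)) 0, fun h2 h3 => absurd ⟨h2, h3⟩ h1,
        fun k _ => rfl⟩
  choose z hz hz' using hz
  -- the entries beyond `c`
  obtain ⟨b, f, hb, hf⟩ : ∃ (b : ℕ) (f : ℕ → ℕ → ℕ), b ≤ 1 ∧
      ∀ x, (b = 1 ∧ ∃ j, x = f j) ↔ x ∈ B := by
    rcases Set.eq_empty_or_nonempty B with hem | hne
    · exact ⟨0, fun _ _ => 0, by omega, fun x => by rw [hem]; simp⟩
    · obtain ⟨f, hf⟩ := hB.exists_eq_range hne
      refine ⟨1, f, le_rfl, fun x => ?_⟩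
      rw [hf]
      constructor
      · rintro ⟨-, j, rfl⟩
        exact ⟨j, rfl⟩
      · rintro ⟨j, rfl⟩
        exact ⟨rfl, j, rfl⟩
  let L : ℕ → ℕ := fun j =>
    if Nat.pair (Nat.unpair j).1 0 < c.length then
      (if (Nat.unpair j).2 = 0 then c.getD j 0 else z (Nat.unpair j).1 ((Nat.unpair j).2 - 1))
    else (if (Nat.unpair j).2 = 0 then b else f ((Nat.unpair j).1 - c.length) ((Nat.unpair j).2 - 1))
  have h1 : ∀ i, Nat.pair i 0 < c.length → L (Nat.pair i 0) = c.getD (Nat.pair i 0) 0 := by
    intro i hi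
    simp only [L, Nat.unpair_pair, hi, if_true]
  have h2 : ∀ i k, Nat.pair i 0 < c.length → L (Nat.pair i (k + 1)) = z i k := by
    intro i k hi
    simp only [L, Nat.unpair_pair, hi, if_true, Nat.succ_ne_zero, if_false, Nat.add_sub_cancel]
  have h3 : ∀ i, ¬ Nat.pair i 0 < c.length → L (Nat.pair i 0) = b := by
    intro i hi
    simp only [L, Nat.unpair_pair, hi, if_true, if_false]
  have h4 : ∀ i k, ¬ Nat.pair i 0 < c.length →
      L (Nat.pair i (k + 1)) = f (i - c.length) k := by
    intro i k hi
    simp only [L, Nat.unpair_pair, hi, if_false, Nat.succ_ne_zero, Nat.add_sub_cancel]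
  refine ⟨L, ?_, ?_, ?_⟩
  · apply List.ext_getElem
    · simp
    · intro j hj1 hj2
      rw [pre_getElem]
      rw [← List.getD_eq_getElem c 0 hj2]
      obtain ⟨i, k, rfl⟩ : ∃ i k, j = Nat.pair i k := ⟨_, _, (Nat.pair_unpair j).symm⟩
      have hi : Nat.pair i 0 < c.length := lt_of_le_of_lt LL.pair_zero_le hj2
      rcases k with _ | k
      · exact h1 i hi
      · rw [h2 i k hi]
        exact (hz' i k hj2).symm
  · intro i
    by_cases hi : Nat.pair i 0 < c.length
    · rw [h1 i hi]
      exact hc i hi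
    · rw [h3 i hi]
      exact hb
  · ext x
    constructor
    · rintro ⟨i, hi1, rfl⟩
      by_cases hi : Nat.pair i 0 < c.length
      · rw [h1 i hi] at hi1
        have h5 : (fun k => L (Nat.pair i (k + 1))) = z i := funext fun k => h2 i k hi
        rw [h5]
        exact hz i hi hi1
      · rw [h3 i hi] at hi1
        apply (hf _).1
        exact ⟨hi1, i - c.length, funext fun k => h4 i k hi⟩
    · intro hx
      obtain ⟨hb1, j, rfl⟩ := (hf x).2 hx
      have hj : ¬ Nat.pair (c.length + j) 0 < c.length := by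
        have := Nat.left_le_pair (c.length + j) 0
        omega
      refine ⟨c.length + j, ?_, ?_⟩
      · rw [h3 _ hj]
        exact hb1
      · funext k
        rw [h4 _ _ hj]
        congr 1
        omega

/-! ### Self-referential names -/

section
variable (R : Set ((ℕ → ℕ) × (ℕ → ℕ)))

/-- The pair of finite sequences refutes the relation. -/
def Refu (l a : List ℕ) : Prop := ∀ q y, pre q a.length = a → pre y l.length = l → (q, y) ∉ R

open Classical in
/-- The value of the name at `n`, given the previous values. -/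
noncomputable def nStep (n : ℕ) (a : List ℕ) : ℕ :=
  match (decode (Nat.unpair n).1 : Option (List ℕ)) with
  | none => 0
  | some l => if Refu R l a then encode l + 1 else 0

/-- The initial segments of the self-referential name. -/
noncomputable def nL : ℕ → List ℕ
  | 0 => []
  | n + 1 => nL n ++ [nStep R n (nL n)]

/-- The self-referential name. -/
noncomputable def nm (n : ℕ) : ℕ := nStep R n (nL R n)

theorem pre_nm (n : ℕ) : pre (nm R) n = nL R n := by
  induction n with
  | zero => rfl
  | succ n ih =>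
    rw [pre_succ, ih]
    rfl

theorem nm_eq (n : ℕ) : nm R n = nStep R n (pre (nm R) n) := by
  rw [pre_nm]
  rfl

theorem nm_spec (l : List ℕ) (k : ℕ) (h : Refu R l (pre (nm R) (Nat.pair (encode l) k))) :
    nm R (Nat.pair (encode l) k) = encode l + 1 := by
  rw [nm_eq]
  unfold nStep
  rw [Nat.unpair_pair]
  simp only [encodek]
  rw [if_pos h]

theorem nm_refuted {n : ℕ} {l : List ℕ} (h : nm R n = encode l + 1) :
    Refu R l (pre (nm R) n) := by
  rw [nm_eq] at h
  unfold nStep at h
  rcases hd : (decode (Nat.unpair n).1 : Option (List ℕ)) with _ | l'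
  · rw [hd] at h
    simp at h
  · rw [hd] at h
    simp only at h
    split_ifs at h with hr
    · have : encode l' = encode l := by omega
      rw [← encode_injective this]
      exact hr

theorem closedOf_nm (hR : IsClosed R) : closedOf (nm R) = {x | (nm R, x) ∈ R} := by
  ext x
  constructor
  · intro hx
    by_contra hcon
    have hcon' : (nm R, x) ∈ Rᶜ := hcon
    obtain ⟨U, V, hU, hV, hpU, hxV, hUV⟩ := isOpen_prod_iff.1 hR.isOpen_compl _ _ hcon'
    obtain ⟨n₁, hn₁⟩ := isOpen_iff_pre.1 hU _ hpU
    obtain ⟨n₂, hn₂⟩ := isOpen_iff_pre.1 hV _ hxV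
    have hm : n₁ ≤ Nat.pair (encode (pre x n₂)) n₁ := Nat.right_le_pair _ _
    have hRf : Refu R (pre x n₂) (pre (nm R) (Nat.pair (encode (pre x n₂)) n₁)) := by
      intro q y hq hy
      rw [pre_length] at hq hy
      exact hUV (Set.mk_mem_prod (hn₁ q (pre_congr fun i hi => pre_eq_iff.1 hq i (by omega)))
        (hn₂ y hy))
    exact hx _ _ (nm_spec R _ _ hRf) (by simp)
  · intro hx n l hl heq
    exact nm_refuted R hl (nm R) x (by simp) heq.symm hx

end

end Q204.CK
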